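import Pool.Agent.Helper81.AD2.Goals

/-! PROJECT AD2, packet INVAR: everything is invariant under the renamings. -/

namespace Pool.Agent.Helper87.AD2.INVAR

open Pool.Agent.Helper88.AD
open Pool.Agent.Helper81.AD2

variable {d : ℕ}

/-- the algebra map which renames the letters -/
noncomputable def rho (σ : Equiv.Perm (Fin d)) : A d →ₐ[ℚ] A d :=
  MonoidAlgebra.lift ℚ (A d) (FreeMonoid (Pt d))
    (FreeMonoid.lift fun b : Pt d => wd [((σ b.1, b.2) : Pt d)])

theorem rho_wd1 (σ : Equiv.Perm (Fin d)) (b : Pt d) : rho σ (wd [b]) = wd [((σ b.1, b.2) : Pt d)] := by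
  unfold rho
  rw [show (wd [b] : A d) = MonoidAlgebra.of ℚ _ (FreeMonoid.ofList [b]) from rfl,
    MonoidAlgebra.lift_of]
  exact FreeMonoid.lift_eval_of _ _

theorem ren_nil (σ : Equiv.Perm (Fin d)) : ren σ [] = [] := rfl

theorem ren_cons (σ : Equiv.Perm (Fin d)) (p : Pt d) (w : List (Pt d)) :
    ren σ (p :: w) = (σ p.1, p.2) :: ren σ w := rfl

theorem ren_append (σ : Equiv.Perm (Fin d)) (u w : List (Pt d)) :
    ren σ (u ++ w) = ren σ u ++ ren σ w := by
  unfold ren
  exact List.map_append

theorem rho_wd (σ : Equiv.Perm (Fin d)) (w : List (Pt d)) : rho σ (wd w) = wd (ren σ w) := by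
  induction w with
  | nil => rw [ren_nil, wd_nil, map_one]
  | cons p w ih => rw [wd_cons, map_mul, ih, rho_wd1, ren_cons, ← wd_cons]

theorem ev_rho (σ : Equiv.Perm (Fin d)) (z : A d) : ev (rho σ z) = act σ (ev z) := by
  have h : (ev ∘ₗ (rho σ).toLinearMap : A d →ₗ[ℚ] V d) = act σ ∘ₗ ev := by
    apply ext_wd
    intro w
    rw [LinearMap.comp_apply, LinearMap.comp_apply, AlgHom.toLinearMap_apply, rho_wd, ev_wd, ev_wd,
      act_el]
  have h2 := LinearMap.congr_fun h z
  rw [LinearMap.comp_apply, LinearMap.comp_apply, AlgHom.toLinearMap_apply] at h2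
  exact h2

theorem rho_br (σ : Equiv.Perm (Fin d)) (x y : A d) : rho σ (br x y) = br (rho σ x) (rho σ y) := by
  unfold br
  rw [map_sub, map_mul, map_mul]

theorem rho_ad (σ : Equiv.Perm (Fin d)) (e : A d) (l : List (Pt d)) :
    rho σ (ad e l) = ad (rho σ e) (ren σ l) := by
  induction l generalizing e with
  | nil => rfl
  | cons p l ih => rw [ad_cons, ih, ren_cons, ad_cons, rho_br, rho_wd1]

theorem rho_lb (σ : Equiv.Perm (Fin d)) (l : List (Pt d)) : rho σ (lb l) = lb (ren σ l) := by
  cases l with
  | nil => rw [ren_nil, lb_nil, map_zero]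
  | cons p l => rw [lb_cons, ren_cons, lb_cons, rho_ad, rho_wd1]

theorem rho_val (σ : Equiv.Perm (Fin d)) (W : List (List (Pt d))) :
    rho σ (val W) = val (W.map (ren σ)) := by
  induction W with
  | nil => rw [List.map_nil, val_nil, map_one]
  | cons l W ih => rw [val_cons, map_mul, ih, rho_lb, List.map_cons, val_cons]

theorem rho_sb (σ : Equiv.Perm (Fin d)) (a : Pt d) (e z : A d) :
    rho σ (sb a e z) = sb ((σ a.1, a.2) : Pt d) (rho σ e) (rho σ z) := by
  have hw : ∀ w : List (Pt d),
      rho σ (sb a e (wd w)) = sb ((σ a.1, a.2) : Pt d) (rho σ e) (rho σ (wd w)) := by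
    intro w
    induction w with
    | nil => simp only [wd_nil, map_one]
    | cons p w ih =>
      rw [wd_cons, map_mul, map_mul, map_mul, map_mul, ih]
      congr 1
      rw [rho_wd1]
      by_cases hp : p = a
      · subst hp
        rw [sb_self, sb_self]
      · rw [sb_ne hp, rho_wd1, sb_ne]
        intro h
        apply hp
        rw [Prod.mk.injEq] at h
        exact Prod.ext (σ.injective h.1) h.2
  have h : ((rho σ).toLinearMap ∘ₗ (sb a e).toLinearMap : A d →ₗ[ℚ] A d) =
      (sb ((σ a.1, a.2) : Pt d) (rho σ e)).toLinearMap ∘ₗ (rho σ).toLinearMap := by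
    apply ext_wd
    intro w
    exact hw w
  exact LinearMap.congr_fun h z

theorem flatten_ren (σ : Equiv.Perm (Fin d)) (W : List (List (Pt d))) :
    (W.map (ren σ)).flatten = ren σ W.flatten := by
  induction W with
  | nil => rfl
  | cons l W ih => rw [List.map_cons, List.flatten_cons, List.flatten_cons, ren_append, ih]

theorem BW_ren (σ : Equiv.Perm (Fin d)) {W : List (List (Pt d))} (h : BW W) :
    BW (W.map (ren σ)) := by
  constructor
  · intro l hl
    rw [List.mem_map] at hl
    obtain ⟨m, hm, rfl⟩ := hl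
    obtain ⟨h1, h2⟩ := h.1 m hm
    constructor
    · intro h0
      apply h1
      unfold ren at h0
      exact List.map_eq_nil_iff.1 h0
    · intro p hp q hq
      unfold ren at hp hq
      rw [List.mem_map] at hp hq
      obtain ⟨p', hp', rfl⟩ := hp
      obtain ⟨q', hq', rfl⟩ := hq
      exact h2 p' hp' q' hq'
  · rw [flatten_ren]
    exact (isD_ren σ _).2 h.2

theorem map_le_of {s : Set (V d)} {N : Submodule ℚ (V d)} (f : V d →ₗ[ℚ] V d)
    (h : ∀ x ∈ s, f x ∈ N) : (Submodule.span ℚ s).map f ≤ N := by
  rw [Submodule.map_le_iff_le_comap, Submodule.span_le]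
  intro x hx
  exact h x hx

theorem act_six (σ : Equiv.Perm (Fin d)) (c c' : A d) (x y : Fin d) :
    act σ (six c c' x y) = six (rho σ c) (rho σ c') (σ x) (σ y) := by
  have hm : ∀ p q r : A d, rho σ (p * q * r) = rho σ p * rho σ q * rho σ r := by
    intro p q r
    rw [map_mul, map_mul]
  unfold six
  rw [map_add, map_add, ← ev_rho, ← ev_rho, ← ev_rho, rho_sb, rho_sb, hm, hm, hm, rho_br, rho_br,
    rho_br, rho_wd1, rho_wd1, rho_wd1, rho_wd1]

/-- Packet INVAR. -/
theorem t : S_INVAR := by
  intro d
  constructor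
  · intro σ
    refine ⟨?_, ?_, ?_⟩
    · intro n
      apply map_le_of
      rintro x ⟨W, hW, hn, rfl⟩
      rw [← ev_rho, rho_val]
      apply mem_F (BW_ren σ hW)
      rw [List.length_map]
      exact hn
    · apply map_le_of
      rintro x ⟨u, w, i, j, b, hij, rfl⟩
      refine Submodule.subset_span ⟨ren σ u, ren σ w, σ i, σ j, b, fun h => hij (σ.injective h), ?_⟩
      rw [map_sub, act_el, act_el, ren_append, ren_append, ren_cons, ren_cons, ren_cons, ren_cons]
    · apply map_le_of
      rintro x ⟨c, c', x, y, hxy, rfl⟩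
      exact Submodule.subset_span ⟨rho σ c, rho σ c', σ x, σ y, fun h => hxy (σ.injective h),
        act_six σ c c' x y⟩
  · unfold RN
    rw [Submodule.span_le]
    rintro v ⟨σ, w, rfl⟩
    show w - act σ w ∈ relI d
    have h : ∀ w : V d, w - act σ w ∈ relI d := by
      intro w
      have hw : w ∈ Submodule.span ℚ (Set.range fun w : List (Pt d) => el w) := by
        rw [span_el]; trivial
      induction hw using Submodule.span_induction with
      | mem x hx =>
        obtain ⟨l, rfl⟩ := hx
        simp only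
        rw [act_el]
        exact Submodule.subset_span (Or.inl ⟨l, σ, rfl⟩)
      | zero => rw [map_zero, sub_zero]; exact Submodule.zero_mem _
      | add x y _ _ hx hy =>
        rw [map_add]
        have : x + y - (act σ x + act σ y) = (x - act σ x) + (y - act σ y) := by abel
        rw [this]
        exact Submodule.add_mem _ hx hy
      | smul a x _ hx =>
        rw [map_smul, ← smul_sub]
        exact Submodule.smul_mem _ _ hx
    exact h w

end Pool.Agent.Helper87.AD2.INVAR
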